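import Pool.Agent.MandelOM.Far

/-!
Q1 of MP_6b648c_co: there is a uniform Mandel oriented matroid (of rank 4 on 9 elements) whose
mutation-flip distance to every Euclidean uniform oriented matroid is at least 2.
-/

namespace Pool.Agent.Results.MP_6b648c_co.MandelFarFromEuclidean

open Pool.Agent.MandelOM

/-- There is a uniform Mandel oriented matroid of rank `4` on `9` elements whose mutation-flip
distance to every Euclidean uniform oriented matroid of rank `4` on the same ground set is at
least `2`. -/
theorem result : ∃ O : UniformOM (Fin 9) 4, O.1.Mandel ∧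
    ∀ O' : UniformOM (Fin 9) 4, O'.1.Euclidean →
      2 ≤ (mutationGraph (Fin 9) 4).edist O.toVertex O'.toVertex :=
  ⟨⟨exO, exO_uniform⟩, exO_mandel, far⟩

end Pool.Agent.Results.MP_6b648c_co.MandelFarFromEuclidean
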